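import Mathlib

/-!
# MP_6fb3b3_lc : the minimum cost of a fast contract-signing protocol is `4N - 6`

`N = M + 1` parties, `M ≥ 1`.  Days are the elements of `Fin (M + 1)`.
-/

namespace Pool.Agent.Results.MP_6fb3b3_lc.FastContract

open Finset

variable {M : ℕ}

/-- A fast protocol for `N = M + 1` parties: contract `n` is at party `P n d` on day `d`, each
`P n` is a permutation of the parties, and contract `n` is at party `n` on the last day `N - 1`. -/
def IsFast (P : Fin (M + 1) → Equiv.Perm (Fin (M + 1))) : Prop :=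
  ∀ n, P n (Fin.last M) = n

/-- The cost of a protocol: the number of triples `(d, i, j)`, `0 ≤ d ≤ N - 2`, such that some
contract is at party `i` on day `d` and at party `j` on day `d + 1`. -/
def cost (P : Fin (M + 1) → Equiv.Perm (Fin (M + 1))) : ℕ :=
  (univ.filter (fun x : Fin M × Fin (M + 1) × Fin (M + 1) =>
    ∃ n, P n x.1.castSucc = x.2.1 ∧ P n x.1.succ = x.2.2)).card

/-- The pairs of parties used on day `d`. -/
def pr (P : Fin (M + 1) → Equiv.Perm (Fin (M + 1))) (d : Fin M) (n : Fin (M + 1)) :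
    Fin (M + 1) × Fin (M + 1) := (P n d.castSucc, P n d.succ)

/-- The number of envelopes sent on day `d`. -/
def env (P : Fin (M + 1) → Equiv.Perm (Fin (M + 1))) (d : Fin M) : ℕ :=
  (univ.image (pr P d)).card

theorem cost_eq (P : Fin (M + 1) → Equiv.Perm (Fin (M + 1))) : cost P = ∑ d, env P d := by
  unfold cost
  rw [Finset.card_eq_sum_card_fiberwise (f := Prod.fst) (t := univ) (by simp)]
  refine Finset.sum_congr rfl fun d _ => ?_
  unfold env
  symm
  refine Finset.card_bij (fun x _ => (d, x)) ?_ ?_ ?_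
  · intro x hx
    obtain ⟨n, _, hn⟩ := Finset.mem_image.1 hx
    simp only [Finset.mem_filter, Finset.mem_univ, true_and, and_true]
    exact ⟨n, by rw [← hn]; rfl, by rw [← hn]; rfl⟩
  · intro x _ y _ h
    exact (Prod.mk.inj h).2
  · rintro ⟨d', x⟩ hx
    simp only [Finset.mem_filter, Finset.mem_univ, true_and] at hx
    obtain ⟨⟨n, h1, h2⟩, h3⟩ := hx
    subst h3
    exact ⟨x, Finset.mem_image.2 ⟨n, Finset.mem_univ _, Prod.ext h1 h2⟩, rfl⟩

/-! ### Spaces of functions of the position -/

/-- Functions of the label that only depend on the value of `f`. -/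
def Sp {α : Type*} (f : Fin (M + 1) → α) : Submodule ℚ (Fin (M + 1) → ℚ) :=
  LinearMap.range (LinearMap.funLeft ℚ ℚ f)

theorem mem_Sp {α : Type*} {f : Fin (M + 1) → α} {g : Fin (M + 1) → ℚ} :
    g ∈ Sp f ↔ ∃ h : α → ℚ, ∀ n, g n = h (f n) := by
  constructor
  · rintro ⟨h, hh⟩
    exact ⟨h, fun n => by rw [← hh]; rfl⟩
  · rintro ⟨h, hh⟩
    exact ⟨h, funext fun n => (hh n).symm⟩

theorem finrank_Sp {α : Type*} [DecidableEq α] (f : Fin (M + 1) → α) :
    Module.finrank ℚ (Sp f) ≤ (univ.image f).card := by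
  have h1 : Sp f ≤ LinearMap.range (LinearMap.funLeft ℚ ℚ
      (fun n => (⟨f n, Finset.mem_image_of_mem f (Finset.mem_univ n)⟩ : {x // x ∈ univ.image f}))) := by
    rintro g ⟨h, hh⟩
    exact ⟨fun x => h x.1, by rw [← hh]; rfl⟩
  refine (Submodule.finrank_mono h1).trans ?_
  refine (LinearMap.finrank_range_le _).trans ?_
  rw [Module.finrank_fintype_fun_eq_card, Fintype.card_coe]

/-- The sum of the spaces of the first days. -/
def T (P : Fin (M + 1) → Equiv.Perm (Fin (M + 1))) (k : ℕ) : Submodule ℚ (Fin (M + 1) → ℚ) :=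
  ⨆ d : {d : Fin M // d.1 ≤ k}, Sp (pr P d.1)

/-- The indicator of the set of contracts which are at party `p` on day `d`. -/
def chi (P : Fin (M + 1) → Equiv.Perm (Fin (M + 1))) (d p : Fin (M + 1)) : Fin (M + 1) → ℚ :=
  fun n => if P n d = p then 1 else 0

theorem two_le (P : Fin (M + 1) → Equiv.Perm (Fin (M + 1))) (hP : IsFast P) (d : Fin (M + 1))
    (hd : d ≠ Fin.last M) (S : Submodule ℚ (Fin (M + 1) → ℚ)) (h1 : (1 : Fin (M + 1) → ℚ) ∈ S)
    (h2 : ∀ p, chi P d p ∈ S) : 2 ≤ Module.finrank ℚ S := by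
  have hne : P (P 0 d) d ≠ P 0 d := by
    intro h
    apply hd
    apply (P (P 0 d)).injective
    rw [hP, h]
  have hli : LinearIndependent ℚ ![(1 : Fin (M + 1) → ℚ), chi P d (P 0 d)] := by
    rw [LinearIndependent.pair_iff]
    intro a b hab
    have e1 := congrFun hab (P 0 d)
    have e2 := congrFun hab 0
    simp only [Pi.add_apply, Pi.smul_apply, Pi.one_apply, smul_eq_mul, mul_one, Pi.zero_apply,
      chi, if_neg hne, mul_zero, add_zero, if_true] at e1 e2
    exact ⟨e1, by rw [e1, zero_add] at e2; exact e2⟩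
  have hspan : Submodule.span ℚ (Set.range ![(1 : Fin (M + 1) → ℚ), chi P d (P 0 d)]) ≤ S := by
    rw [Submodule.span_le]
    rintro x ⟨i, rfl⟩
    fin_cases i
    · exact h1
    · exact h2 _
  have h3 := Submodule.finrank_mono hspan
  rw [finrank_span_eq_card hli] at h3
  simpa using h3

theorem one_mem {α : Type*} (f : Fin (M + 1) → α) : (1 : Fin (M + 1) → ℚ) ∈ Sp f :=
  mem_Sp.2 ⟨fun _ => 1, fun _ => rfl⟩

theorem chi_mem_left (P : Fin (M + 1) → Equiv.Perm (Fin (M + 1))) (d : Fin M) (p : Fin (M + 1)) :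
    chi P d.castSucc p ∈ Sp (pr P d) :=
  mem_Sp.2 ⟨fun x => if x.1 = p then 1 else 0, fun _ => rfl⟩

theorem chi_mem_right (P : Fin (M + 1) → Equiv.Perm (Fin (M + 1))) (d : Fin M) (p : Fin (M + 1)) :
    chi P d.succ p ∈ Sp (pr P d) :=
  mem_Sp.2 ⟨fun x => if x.2 = p then 1 else 0, fun _ => rfl⟩

theorem Sp_le_T (P : Fin (M + 1) → Equiv.Perm (Fin (M + 1))) {k : ℕ} (d : Fin M) (hd : d.1 ≤ k) :
    Sp (pr P d) ≤ T P k :=
  le_iSup (fun d : {d : Fin M // d.1 ≤ k} => Sp (pr P d.1)) ⟨d, hd⟩

theorem T_zero (P : Fin (M + 1) → Equiv.Perm (Fin (M + 1))) (h : 0 < M) :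
    T P 0 ≤ Sp (pr P ⟨0, h⟩) := by
  refine iSup_le ?_
  rintro ⟨d, hd⟩
  have : d = ⟨0, h⟩ := Fin.ext (Nat.le_zero.1 hd)
  subst this
  exact le_rfl

theorem T_succ (P : Fin (M + 1) → Equiv.Perm (Fin (M + 1))) {k : ℕ} (h : k + 1 < M) :
    T P (k + 1) ≤ T P k ⊔ Sp (pr P ⟨k + 1, h⟩) := by
  refine iSup_le ?_
  rintro ⟨d, hd⟩
  rcases Nat.lt_or_ge k d.1 with h1 | h1
  · have : d = ⟨k + 1, h⟩ := Fin.ext (by
      show d.1 = k + 1
      omega)
    subst this
    exact le_sup_right
  · exact (Sp_le_T P d h1).trans le_sup_left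

/-- The dimension estimate. -/
theorem finrank_T (P : Fin (M + 1) → Equiv.Perm (Fin (M + 1))) (hP : IsFast P) (k : ℕ)
    (h : k + 1 < M) :
    Module.finrank ℚ (T P k) + 2 * k ≤ ∑ d ∈ univ.filter (fun d : Fin M => d.1 ≤ k), env P d := by
  induction k with
  | zero =>
    have h1 := Submodule.finrank_mono (T_zero P (by omega))
    have h2 := finrank_Sp (pr P ⟨0, by omega⟩)
    have h3 : univ.filter (fun d : Fin M => d.1 ≤ 0) = {⟨0, by omega⟩} := by
      ext d
      simp only [Finset.mem_filter, Finset.mem_univ, true_and, Finset.mem_singleton, Fin.ext_iff]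
      omega
    rw [h3, Finset.sum_singleton]
    unfold env
    omega
  | succ k ih =>
    have ih' := ih (by omega)
    set d0 : Fin M := ⟨k + 1, by omega⟩ with hd0
    have h1 : Module.finrank ℚ (T P (k + 1)) ≤
        Module.finrank ℚ (T P k ⊔ Sp (pr P d0) : Submodule ℚ (Fin (M + 1) → ℚ)) :=
      Submodule.finrank_mono (T_succ P (k := k) (by omega))
    have h2 := Submodule.finrank_sup_add_finrank_inf_eq (T P k) (Sp (pr P d0))
    have h3 : Module.finrank ℚ (Sp (pr P d0)) ≤ env P d0 := finrank_Sp (pr P d0)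
    have h4 : 2 ≤ Module.finrank ℚ (T P k ⊓ Sp (pr P d0) : Submodule ℚ (Fin (M + 1) → ℚ)) := by
      refine two_le P hP d0.castSucc (Fin.castSucc_lt_last d0).ne _ ?_ ?_
      · refine ⟨?_, one_mem _⟩
        exact Sp_le_T P ⟨k, by omega⟩ le_rfl (one_mem _)
      · intro p
        refine ⟨?_, chi_mem_left P d0 p⟩
        refine Sp_le_T P ⟨k, by omega⟩ le_rfl ?_
        have : d0.castSucc = (⟨k, by omega⟩ : Fin M).succ := Fin.ext rfl
        rw [this]
        exact chi_mem_right P _ p
    have h5 : univ.filter (fun d : Fin M => d.1 ≤ k + 1) =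
        insert d0 (univ.filter (fun d : Fin M => d.1 ≤ k)) := by
      ext d
      simp only [Finset.mem_filter, Finset.mem_univ, true_and, Finset.mem_insert, Fin.ext_iff, hd0]
      omega
    rw [h5, Finset.sum_insert (by simp [hd0])]
    omega

/-- The indicators of the single contracts are in the span. -/
theorem single_eq (P : Fin (M + 1) → Equiv.Perm (Fin (M + 1))) (hP : IsFast P)
    (p : Fin (M + 1)) :
    (Pi.single p 1 : Fin (M + 1) → ℚ) = 1 - ∑ d : Fin M, chi P d.castSucc p := by
  funext n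
  simp only [Pi.sub_apply, Pi.one_apply, Finset.sum_apply, chi]
  have h1 : ∑ d : Fin (M + 1), (if P n d = p then (1 : ℚ) else 0) = 1 := by
    rw [Finset.sum_eq_single ((P n).symm p)]
    · simp
    · intro b _ hb
      rw [if_neg]
      intro h
      exact hb (by rw [← h, Equiv.symm_apply_apply])
    · simp
  rw [Fin.sum_univ_castSucc, hP n] at h1
  rw [eq_sub_of_add_eq h1]
  by_cases h : n = p
  · subst h
    simp
  · rw [if_neg h, Pi.single_eq_of_ne h]
    ring

theorem lower (hM : 1 ≤ M) (P : Fin (M + 1) → Equiv.Perm (Fin (M + 1))) (hP : IsFast P) :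
    4 * (M + 1) - 6 ≤ cost P := by
  rw [cost_eq]
  obtain ⟨m, rfl⟩ : ∃ m, M = m + 1 := ⟨M - 1, by omega⟩
  -- the last day
  have hlast : m + 2 ≤ env P (Fin.last m) := by
    have h1 : (univ.image (fun n => P n (Fin.last m).succ)).card ≤ env P (Fin.last m) := by
      unfold env
      have : univ.image (fun n => P n (Fin.last m).succ) =
          (univ.image (pr P (Fin.last m))).image Prod.snd := by
        rw [Finset.image_image]
        rfl
      rw [this]
      exact Finset.card_image_le
    have h2 : univ.image (fun n => P n (Fin.last m).succ) = univ := by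
      have : (Fin.last m).succ = Fin.last (m + 1) := Fin.succ_last m
      simp only [this, hP _]
      exact Finset.image_id
    rw [h2, Finset.card_univ, Fintype.card_fin] at h1
    exact h1
  rw [Fin.sum_univ_castSucc]
  rcases Nat.eq_zero_or_pos m with h0 | h0
  · subst h0
    rw [Finset.univ_eq_empty, Finset.sum_empty]
    omega
  obtain ⟨k, rfl⟩ : ∃ k, m = k + 1 := ⟨m - 1, by omega⟩
  have h3 := finrank_T P hP k (by omega)
  have h4 : T P k = ⊤ := by
    rw [eq_top_iff]
    intro f _
    have hf : f = ∑ p, f p • (Pi.single p 1 : Fin (k + 1 + 1 + 1) → ℚ) := by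
      funext n
      simp [Finset.sum_apply, Pi.single_apply]
    rw [hf]
    refine Submodule.sum_mem _ fun p _ => Submodule.smul_mem _ _ ?_
    rw [single_eq P hP p]
    refine Submodule.sub_mem _ (Sp_le_T P ⟨0, by omega⟩ (Nat.zero_le _) (one_mem _))
      (Submodule.sum_mem _ fun d _ => ?_)
    rcases Nat.lt_or_ge k d.1 with h | h
    · have : d.castSucc = (⟨k, by omega⟩ : Fin (k + 1 + 1)).succ := Fin.ext (by simp; omega)
      rw [this]
      exact Sp_le_T P ⟨k, by omega⟩ le_rfl (chi_mem_right P _ p)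
    · exact Sp_le_T P d h (chi_mem_left P d p)
  rw [h4, finrank_top, Module.finrank_fintype_fun_eq_card, Fintype.card_fin] at h3
  have h5 : ∑ d ∈ univ.filter (fun d : Fin (k + 1 + 1) => d.1 ≤ k), env P d =
      ∑ d : Fin (k + 1), env P d.castSucc := by
    rw [Finset.sum_filter, Fin.sum_univ_castSucc]
    have : ¬ ((Fin.last (k + 1)).1 ≤ k) := by simp
    rw [if_neg this, add_zero]
    refine Finset.sum_congr rfl fun d _ => ?_
    have : d.castSucc.1 ≤ k := by
      have := d.2
      simp
      omega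
    rw [if_pos this]
  rw [h5] at h3
  omega

/-! ### The upper bound -/

/-- The protocol `P_n = (0, 1, …, n-1, n+1, …, N-1, n)`. -/
def std (M : ℕ) (n : Fin (M + 1)) : Equiv.Perm (Fin (M + 1)) :=
  (finSuccEquiv' (Fin.last M)).trans (finSuccEquiv' n).symm

theorem std_last (n : Fin (M + 1)) : std M n (Fin.last M) = n := by
  simp [std]

theorem std_castSucc (n : Fin (M + 1)) (d : Fin M) : std M n d.castSucc = n.succAbove d := by
  unfold std
  rw [Equiv.trans_apply]
  have h : finSuccEquiv' (Fin.last M) d.castSucc = some d := by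
    rw [← Fin.succAbove_last_apply]
    exact finSuccEquiv'_succAbove _ _
  rw [h]
  exact finSuccEquiv'_symm_some _ _

theorem env_std_le (m : ℕ) (d : Fin m) : env (M := m + 1) (std (m + 1)) d.castSucc ≤ 3 := by
  unfold env
  have h : univ.image (pr (M := m + 1) (std (m + 1)) d.castSucc) ⊆
      {(d.castSucc.castSucc, d.castSucc.succ), (d.castSucc.castSucc, d.succ.succ),
        (d.castSucc.succ, d.succ.succ)} := by
    intro x hx
    obtain ⟨n, _, rfl⟩ := Finset.mem_image.1 hx
    have e1 : std (m + 1) n d.castSucc.castSucc = n.succAbove d.castSucc := std_castSucc _ _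
    have e2 : std (m + 1) n d.castSucc.succ = n.succAbove d.succ := std_castSucc n d.succ
    simp only [pr, e1, e2, Finset.mem_insert, Finset.mem_singleton, Prod.mk.injEq]
    rcases lt_trichotomy n.1 (d.1 + 1) with h | h | h
    · right; right
      constructor
      · rw [Fin.succAbove_of_le_castSucc]
        rw [Fin.le_def]
        simp
        omega
      · rw [Fin.succAbove_of_le_castSucc]
        rw [Fin.le_def]
        simp
        omega
    · right; left
      constructor
      · rw [Fin.succAbove_of_castSucc_lt]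
        rw [Fin.lt_def]
        simp
        omega
      · rw [Fin.succAbove_of_le_castSucc]
        rw [Fin.le_def]
        simp
        omega
    · left
      constructor
      · rw [Fin.succAbove_of_castSucc_lt]
        rw [Fin.lt_def]
        simp
        omega
      · rw [Fin.succAbove_of_castSucc_lt]
        · rfl
        · rw [Fin.lt_def]
          simp
          omega
  exact (Finset.card_le_card h).trans Finset.card_le_three

theorem env_le (P : Fin (M + 1) → Equiv.Perm (Fin (M + 1))) (d : Fin M) : env P d ≤ M + 1 := by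
  unfold env
  refine Finset.card_image_le.trans ?_
  simp

theorem upper (hM : 1 ≤ M) : cost (std M) ≤ 4 * (M + 1) - 6 := by
  rw [cost_eq]
  obtain ⟨m, rfl⟩ : ∃ m, M = m + 1 := ⟨M - 1, by omega⟩
  rw [Fin.sum_univ_castSucc]
  have h1 : ∑ d : Fin m, env (M := m + 1) (std (m + 1)) d.castSucc ≤ ∑ _d : Fin m, 3 :=
    Finset.sum_le_sum fun d _ => env_std_le m d
  have h2 := env_le (std (m + 1)) (Fin.last m)
  simp only [Finset.sum_const, Finset.card_univ, Fintype.card_fin, smul_eq_mul] at h1
  omega

/-- **Theorem.**  For every number `N = M + 1 ≥ 2` of parties the minimum cost of a fast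
contract-signing protocol is `4N - 6`. -/
theorem result (M : ℕ) (hM : 1 ≤ M) :
    IsLeast {c | ∃ P : Fin (M + 1) → Equiv.Perm (Fin (M + 1)), IsFast P ∧ cost P = c}
      (4 * (M + 1) - 6) := by
  refine ⟨⟨std M, std_last, le_antisymm (upper hM) (lower hM _ std_last)⟩, ?_⟩
  rintro c ⟨P, hP, rfl⟩
  exact lower hM P hP

end Pool.Agent.Results.MP_6fb3b3_lc.FastContract
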